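import Pool.Agent.MP_9dc49b_gt.H35.Defs

/-!
Genus zero Gromov-Witten invariants as signed counts of simple holomorphic spheres for regular
almost complex structures (McDuff-Salamon, J-holomorphic curves and symplectic topology,
Definition 6.2.1, Section 6.5 and Theorem 7.1.1).
-/

open scoped Manifold ContDiff
open Pool.Agent.MP_9dc49b_gt.H35

namespace Pool.Agent.MP_9dc49b_gt.H61

noncomputable section

/-- The point `1 / w` of the Riemann sphere. -/
def flip (w : ℂ) : OnePoint ℂ := if w = 0 then OnePoint.infty else OnePoint.some w⁻¹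

/-- The second singular homology group with integer coefficients. -/
abbrev H2 (Y : Type) [TopologicalSpace Y] : ModuleCat.{0} ℤ :=
  ((AlgebraicTopology.singularHomologyFunctor (ModuleCat.{0} ℤ) 2).obj (ModuleCat.of ℤ ℤ)).obj
    (TopCat.of Y)

open Classical in
/-- The class `u_* e` for a continuous map `u`. -/
def push {Y X : Type} [TopologicalSpace Y] [TopologicalSpace X] (e : H2 Y) (u : Y → X) : H2 X :=
  if h : Continuous u then
    (((AlgebraicTopology.singularHomologyFunctor (ModuleCat.{0} ℤ) 2).obj (ModuleCat.of ℤ ℤ)).map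
      (TopCat.ofHom ⟨u, h⟩)).hom e
  else 0

variable {E : Type} [NormedAddCommGroup E] [NormedSpace ℝ E] {H : Type} [TopologicalSpace H]
  (I : ModelWithCorners ℝ E H) {X : Type} [TopologicalSpace X] [ChartedSpace H X]
  (J : ∀ x : X, TangentSpace I x →ₗ[ℝ] TangentSpace I x)

/-- The linearised Cauchy-Riemann operator `∂_s ξ + J ∂_t ξ + (∂_ξ J) ∂_t f` at `w = s + i t` of a
vector field `ξ` along a `J`-holomorphic map `f`, computed in the chart at `f w`. -/
def lin (f : ℂ → X) (ξ : ℂ → E) (w : ℂ) : E :=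
  let φ := extChartAt I (f w)
  let ζ : ℂ → E := fun w' => mfderiv I 𝓘(ℝ, E) φ (f w') (ξ w')
  fderiv ℝ ζ w 1 + coordEnd I J (f w) (fderiv ℝ ζ w Complex.I) (φ (f w)) +
    fderiv ℝ (coordEnd I J (f w) (fderiv ℝ (fun w' => φ (f w')) w Complex.I)) (φ (f w)) (ζ w)

/-- The image of the differential of `u` at the point `s` of the sphere. -/
def Tg (u : OnePoint ℂ → X) (s : OnePoint ℂ) : Set E :=
  {v | ∃ w c : ℂ, (s = OnePoint.some w ∧ v = mfderiv 𝓘(ℝ, ℂ) I (fun w : ℂ => u w) w c) ∨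
    (s = flip w ∧ v = mfderiv 𝓘(ℝ, ℂ) I (fun w => u (flip w)) w c)}

/-- `u` is somewhere injective. -/
def Simple (u : OnePoint ℂ → X) : Prop :=
  ∃ s, (∀ t, u t = u s → t = s) ∧ ∃ v ∈ Tg I u s, v ≠ 0

/-- A stable `J`-holomorphic map of genus zero in the class `A` with marked points `m i`. -/
structure Stable (e : H2 (OnePoint ℂ)) (A : H2 X) {n k : ℕ} (T : SimpleGraph (Fin n))
    (u : Fin n → OnePoint ℂ → X) (z : Fin n → Fin n → OnePoint ℂ)
    (m : Fin k → Fin n × OnePoint ℂ) : Prop where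
  tree : TreeMap I J T u z
  cls : ∑ a, push e (u a) = A
  inj : Function.Injective m
  off : ∀ i b, T.Adj (m i).1 b → (m i).2 ≠ z (m i).1 b
  stable : ∀ a, (∀ s t, u a s = u a t) → 3 ≤ {b | T.Adj a b}.ncard + {i | (m i).1 = a}.ncard

/-- Simple `J`-holomorphic spheres `u` of class `A` with distinct points `s i` and points `y i` of
the cycles such that `u (s i) = g i (y i)`. -/
def Sol (e : H2 (OnePoint ℂ)) (A : H2 X) {k : ℕ} {W : Fin k → Type} (g : ∀ i, W i → X) :
    Set ((OnePoint ℂ → X) × (Fin k → OnePoint ℂ) × ∀ i, W i) :=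
  {x | JSphere I J x.1 ∧ Simple I x.1 ∧ push e x.1 = A ∧ Function.Injective x.2.1 ∧
    ∀ i, x.1 (x.2.1 i) = g i (x.2.2 i)}

/-- The sum of `ν` over the solutions modulo Moebius transformations. -/
def count (e : H2 (OnePoint ℂ)) (A : H2 X) {k : ℕ} {W : Fin k → Type} (g : ∀ i, W i → X)
    (ν : (OnePoint ℂ → X) × (Fin k → OnePoint ℂ) × (∀ i, W i) → ℤ) : ℤ :=
  ∑ᶠ q : Quot fun x x' : Sol I J e A g => ∃ γ : GL (Fin 2) ℂ,
    (∀ s, x.1.1 s = x'.1.1 (γ • s)) ∧ (∀ i, γ • x.1.2.1 i = x'.1.2.1 i) ∧ x.1.2.2 = x'.1.2.2,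
    ν q.out.1

variable [IsManifold I ∞ X]

/-- A smooth vector field along `f`. -/
def Along (f : ℂ → X) (ξ : ℂ → E) : Prop :=
  ContMDiff 𝓘(ℝ, ℂ) I.tangent ∞ fun w => (⟨f w, ξ w⟩ : TangentBundle I X)

/-- A smooth section `ξ` of `u^* TX` over the sphere with `D_u ξ = η`. -/
def Solves (u : OnePoint ℂ → X) (ξ : OnePoint ℂ → E) (η : ℂ → E) : Prop :=
  Along I (fun w => u w) (fun w => ξ w) ∧ Along I (fun w => u (flip w)) (fun w => ξ (flip w)) ∧
    lin I J (fun w => u w) (fun w => ξ w) = η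

/-- A smooth `(0,1)`-form on the sphere with values in `u^* TX`: `η` and `η'` are its values on the
first coordinate vector field of the charts `w` and `1 / w`. -/
def Form (u : OnePoint ℂ → X) (η : ℂ → E) : Prop :=
  Along I (fun w => u w) η ∧ ∃ η' : ℂ → E, Along I (fun w => u (flip w)) η' ∧
    ∀ w : ℂ, w ≠ 0 → η w + (w⁻¹ ^ 2).re • η' w⁻¹ = J (u w) ((w⁻¹ ^ 2).im • η' w⁻¹)

/-- `J` is regular: on simple tree maps the operators `D_u` are onto and the edge evaluation map is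
transverse to the diagonal. -/
def Regular : Prop :=
  ∀ (n : ℕ) (T : SimpleGraph (Fin n)) (u : Fin n → OnePoint ℂ → X)
    (z : Fin n → Fin n → OnePoint ℂ), TreeMap I J T u z →
    (∀ a, (∀ s t, u a s = u a t) ∨
      (Simple I (u a) ∧ ∀ b, Set.range (u b) = Set.range (u a) → b = a)) →
    ∀ (η : Fin n → ℂ → E) (v : Fin n → Fin n → E), (∀ a, Form I J (u a) (η a)) →
      ∃ (ξ : Fin n → OnePoint ℂ → E) (t : Fin n → Fin n → E), (∀ a, Solves I J (u a) (ξ a) (η a)) ∧
        ∀ a b, T.Adj a b → t a b ∈ Tg I (u a) (z a b) ∧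
          ξ a (z a b) + t a b - v a b = ξ b (z b a) + t b a - v b a

variable (e : H2 (OnePoint ℂ)) (A : H2 X) {k : ℕ} (d : Fin k → ℕ) {W : Fin k → Type}
  [∀ i, TopologicalSpace (W i)] [∀ i, ChartedSpace (EuclideanSpace ℝ (Fin (d i))) (W i)]

/-- The cycles `g i` are smooth and strongly transverse to the evaluation map: the stable maps of
class `A` that meet them are simple spheres, and there the linearised evaluation map is onto. -/
structure Transverse (g : ∀ i, W i → X) : Prop where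
  smooth : ∀ i, ContMDiff (𝓡 (d i)) I ∞ (g i)
  top : ∀ (n : ℕ) (T : SimpleGraph (Fin n)) (u : Fin n → OnePoint ℂ → X)
    (z : Fin n → Fin n → OnePoint ℂ) (m : Fin k → Fin n × OnePoint ℂ), Stable I J e A T u z m →
    (∀ i, u (m i).1 (m i).2 ∈ Set.range (g i)) → n = 1 ∧ ∀ a, Simple I (u a)
  onto : ∀ x ∈ Sol I J e A g, ∀ v : Fin k → E, ∃ ξ, Solves I J x.1 ξ 0 ∧
    ∀ i, ∃ t ∈ Tg I x.1 (x.2.1 i), ∃ y : EuclideanSpace ℝ (Fin (d i)),
      ξ (x.2.1 i) + t - v i = mfderiv (𝓡 (d i)) I (g i) (x.2.2 i) y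

/-- `r` is the genus zero Gromov-Witten invariant of `(X, σ)` in the class `A` of the classes dual
to the cycles `g i`, computed with the sign rule `ν`: it is the signed count for a regular
compatible `J` and strongly transverse cycles homotopic to the `g i`. -/
def IsGW (σ : ∀ x : X, TangentSpace I x →ₗ[ℝ] TangentSpace I x →ₗ[ℝ] ℝ) (g : ∀ i, C(W i, X))
    (ν : (∀ x : X, TangentSpace I x →ₗ[ℝ] TangentSpace I x) → (∀ i, C(W i, X)) →
      (OnePoint ℂ → X) × (Fin k → OnePoint ℂ) × (∀ i, W i) → ℤ) (r : ℤ) : Prop :=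
  ∃ (J : ∀ x : X, TangentSpace I x →ₗ[ℝ] TangentSpace I x) (g' : ∀ i, C(W i, X)),
    Compatible I σ J ∧ Regular I J ∧ (∀ i, (g i).Homotopic (g' i)) ∧
      Transverse I J e A d (fun i => g' i) ∧ count I J e A (fun i => g' i) (ν J g') = r

end

end Pool.Agent.MP_9dc49b_gt.H61
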