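import Pool.Agent.MP_9dc49b_gt.H35.Neg
import Pool.Agent.MP_9dc49b_gt.H61.Defs

/-! Vector fields along maps to `S² × S² × T²` and the linearised operator in ambient terms. -/

open scoped Manifold ContDiff Topology
open Filter Pool.Agent.MP_9dc49b_gt.H35

namespace Pool.Agent.MP_9dc49b_gt.H61

noncomputable section

section
variable {E : Type} [NormedAddCommGroup E] [NormedSpace ℝ E] {H : Type} [TopologicalSpace H]
  (I : ModelWithCorners ℝ E H) {X : Type} [TopologicalSpace X] [ChartedSpace H X]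

/-- The chart expression of a vector field along `f`. -/
def loc (x₀ : X) (f : ℂ → X) (ξ : ℂ → E) (w : ℂ) : E :=
  mfderiv I 𝓘(ℝ, E) (extChartAt I x₀) (f w) (ξ w)

variable {I}

lemma along_iff [IsManifold I ∞ X] {f : ℂ → X} {ξ : ℂ → E} (hf : ContMDiff 𝓘(ℝ, ℂ) I ∞ f) :
    Along I f ξ ↔ ∀ w, ContDiffAt ℝ ∞ (loc I (f w) f ξ) w := by
  refine forall_congr' fun w => ?_
  rw [ModelWithCorners.tangent, Bundle.contMDiffAt_totalSpace, ← contMDiffAt_iff_contDiffAt]
  have e : (fun w' => (trivializationAt E (TangentSpace I) (f w)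
      (⟨f w', ξ w'⟩ : TangentBundle I X)).2) =ᶠ[𝓝 w] loc I (f w) f ξ := by
    filter_upwards [(hf w).continuousAt.eventually (chart_source_mem_nhds H (f w))] with z hz
    rw [loc, ← TangentBundle.continuousLinearMapAt_trivializationAt hz]
    exact (congrFun (Bundle.Trivialization.coe_linearMapAt_of_mem (R := ℝ)
      (trivializationAt E (TangentSpace I) (f w)) (b := f z) hz) (ξ z)).symm
  exact ⟨fun h => h.2.congr_of_eventuallyEq e.symm, fun h => ⟨hf w, h.congr_of_eventuallyEq e⟩⟩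

lemma inv_smooth [FiniteDimensional ℝ E] {V : Type} [NormedAddCommGroup V] [NormedSpace ℝ V]
    [FiniteDimensional ℝ V] {L : ℂ → E →L[ℝ] V} {ζ : ℂ → E} {w : ℂ} (hL : ContDiffAt ℝ ∞ L w)
    (hi : Function.Injective (L w)) (h : ContDiffAt ℝ ∞ (fun z => L z (ζ z)) w) :
    ContDiffAt ℝ ∞ ζ w := by
  have hE : CompleteSpace E := FiniteDimensional.complete ℝ E
  obtain ⟨P, hP⟩ := (L w : E →ₗ[ℝ] V).exists_leftInverse_of_injective (LinearMap.ker_eq_bot.2 hi)
  let P' : V →L[ℝ] E := LinearMap.toContinuousLinearMap P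
  have h1 : P'.comp (L w) = ((1 : (E →L[ℝ] E)ˣ) : E →L[ℝ] E) := by
    ext v
    exact LinearMap.congr_fun hP v
  have h2 : ContDiffAt ℝ ∞ (fun z => P'.comp (L z)) w := contDiffAt_const.clm_comp hL
  have h3 : ContDiffAt ℝ ∞ (fun z => Ring.inverse (P'.comp (L z))) w := by
    have := contDiffAt_ringInverse ℝ (n := ∞) (1 : (E →L[ℝ] E)ˣ)
    rw [← h1] at this
    exact this.comp w h2
  have h4 : ∀ᶠ z in 𝓝 w, IsUnit (P'.comp (L z)) :=
    h2.continuousAt.eventually (Units.isOpen.mem_nhds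
      (show IsUnit (P'.comp (L w)) from h1 ▸ Units.isUnit _))
  refine (h3.clm_apply (P'.contDiff.contDiffAt.comp w h)).congr_of_eventuallyEq ?_
  filter_upwards [h4] with z hz
  exact (congrArg (fun B : E →L[ℝ] E => B (ζ z)) (Ring.inverse_mul_cancel _ hz)).symm

end

/-- The cross product on the two sphere factors. -/
def cr (b c : V8) : V8 :=
  ![b 1 * c 2 - b 2 * c 1, b 2 * c 0 - b 0 * c 2, b 0 * c 1 - b 1 * c 0,
    b 4 * c 5 - b 5 * c 4, b 5 * c 3 - b 3 * c 5, b 3 * c 4 - b 4 * c 3, 0, 0]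

/-- The projection to the tangent space. -/
def pr (a : V10) (b : V8) : V8 :=
  ![b 0 - (a 0 * b 0 + a 1 * b 1 + a 2 * b 2) * a 0, b 1 - (a 0 * b 0 + a 1 * b 1 + a 2 * b 2) * a 1,
    b 2 - (a 0 * b 0 + a 1 * b 1 + a 2 * b 2) * a 2, b 3 - (a 3 * b 3 + a 4 * b 4 + a 5 * b 5) * a 3,
    b 4 - (a 3 * b 3 + a 4 * b 4 + a 5 * b 5) * a 4, b 5 - (a 3 * b 3 + a 4 * b 4 + a 5 * b 5) * a 5,
    b 6, b 7]

lemma K_zero (a : V10) (b : V8) : K 0 a b = jF a b := by
  ext i; fin_cases i <;> simp [K_apply, phiF, jF]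

lemma jF_add (a : V10) (b c : V8) : jF a (b + c) = jF a b + jF a c := by
  simpa only [K_zero] using (K 0 a).map_add b c

lemma jF_smul (a : V10) (r : ℝ) (c : V8) : jF a (r • c) = r • jF a c := by
  simpa only [K_zero] using (K 0 a).map_smul r c

section
variable {E : Type} [NormedAddCommGroup E] [NormedSpace ℝ E]

lemma fderiv_coord8 {a : E → V8} {y : E} (ha : DifferentiableAt ℝ a y) (i : Fin 8) (u : E) :
    fderiv ℝ (fun y => a y i) y u = fderiv ℝ a y u i := by
  rw [fderiv_apply ha i]; rfl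

lemma cd_jF {a : E → V10} {b : E → V8} {y : E} {n : WithTop ℕ∞} (ha : ContDiffAt ℝ n a y)
    (hb : ContDiffAt ℝ n b y) : ContDiffAt ℝ n (fun y => jF (a y) (b y)) y := by
  refine contDiffAt_pi.2 fun i => ?_
  fin_cases i <;> simp [jF] <;> fun_prop

lemma cd_pr {a : E → V10} {b : E → V8} {y : E} {n : WithTop ℕ∞} (ha : ContDiffAt ℝ n a y)
    (hb : ContDiffAt ℝ n b y) : ContDiffAt ℝ n (fun y => pr (a y) (b y)) y := by
  refine contDiffAt_pi.2 fun i => ?_
  fin_cases i <;> simp [pr] <;> fun_prop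

lemma fderiv_jF {a : E → V10} {b : E → V8} {y : E} (ha : ContDiffAt ℝ 1 a y)
    (hb : ContDiffAt ℝ 1 b y) (u : E) : fderiv ℝ (fun y => jF (a y) (b y)) y u =
      cr (red (a y) (fderiv ℝ a y u)) (b y) + jF (a y) (fderiv ℝ b y u) := by
  have h := (cd_jF ha hb).differentiableAt one_ne_zero
  have ha := ha.differentiableAt one_ne_zero
  have hb := hb.differentiableAt one_ne_zero
  ext i
  rw [← fderiv_coord8 h]
  fin_cases i <;>
  · simp only [jF, cr, red_apply, Matrix.cons_val, Fin.zero_eta, Fin.mk_one, Fin.reduceFinMk,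
      Pi.add_apply]
    simp (disch := fun_prop) only [fderiv_fun_sub, fderiv_fun_mul, fderiv_fun_neg, add_apply,
      sub_apply, smul_apply, neg_apply, smul_eq_mul, fderiv_coord ha, fderiv_coord8 hb]
    ring

lemma fderiv_red {a b : E → V10} {y : E} (ha : ContDiffAt ℝ 1 a y) (hb : ContDiffAt ℝ 1 b y)
    (u : E) : fderiv ℝ (fun y => red (a y) (b y)) y u =
      ![0, 0, 0, 0, 0, 0, fderiv ℝ a y u 6 * b y 7 - fderiv ℝ a y u 7 * b y 6,
        fderiv ℝ a y u 8 * b y 9 - fderiv ℝ a y u 9 * b y 8] + red (a y) (fderiv ℝ b y u) := by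
  have ha := ha.differentiableAt one_ne_zero
  have hb := hb.differentiableAt one_ne_zero
  have h : DifferentiableAt ℝ (fun y => red (a y) (b y)) y := by
    refine differentiableAt_pi.2 fun i => ?_
    fin_cases i <;> simp [red_apply] <;> fun_prop
  ext i
  rw [← fderiv_coord8 h]
  fin_cases i <;>
  · simp only [red_apply, Matrix.cons_val, Fin.zero_eta, Fin.mk_one, Fin.reduceFinMk,
      Pi.add_apply]
    simp (disch := fun_prop) only [fderiv_fun_sub, fderiv_fun_mul, add_apply,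
      sub_apply, smul_apply, smul_eq_mul, fderiv_coord ha, fderiv_coord hb]
    ring

end

/-- The differential of the inverse chart in reduced coordinates. -/
def Gm (x₀ : X6) (y : E6) : E6 →L[ℝ] V8 :=
  (LinearMap.toContinuousLinearMap (red (FF x₀ y))).comp (fderiv ℝ (FF x₀) y)

lemma Gm_apply (x₀ : X6) (y v : E6) : Gm x₀ y v = red (FF x₀ y) (fderiv ℝ (FF x₀) y v) := rfl

lemma Gm_smooth (x₀ : X6) {y : E6} (hy : y ∈ (extChartAt I6 x₀).target) :
    ContDiffAt ℝ ∞ (Gm x₀) y := by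
  have h : ContDiff ℝ ∞ fun a : V10 => LinearMap.toContinuousLinearMap (red a) := by
    refine contDiff_clm_apply_iff.2 fun c => contDiff_pi.2 fun i => ?_
    fin_cases i <;> simp [red_apply] <;> fun_prop
  exact (h.contDiffAt.comp y (FF_smooth x₀ hy)).clm_comp
    ((FF_smooth x₀ hy).fderiv_right (m := ∞) (by simp))

lemma D_chart (x₀ : X6) {p : X6} (hp : p ∈ (extChartAt I6 x₀).source) (v : E6) :
    D p v = Gm x₀ (extChartAt I6 x₀ p) (mfderiv I6 𝓘(ℝ, E6) (extChartAt I6 x₀) p v) := by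
  obtain ⟨y, hy, rfl⟩ : ∃ y ∈ (extChartAt I6 x₀).target, (extChartAt I6 x₀).symm y = p :=
    ⟨_, (extChartAt I6 x₀).map_source hp, (extChartAt I6 x₀).left_inv hp⟩
  have h := D_coordVec x₀ hy
    (mfderiv I6 𝓘(ℝ, E6) (extChartAt I6 x₀) ((extChartAt I6 x₀).symm y) v)
  rw [chart_left x₀ hy v] at h
  exact h.trans (congrArg (fun y' => Gm x₀ y'
    (mfderiv I6 𝓘(ℝ, E6) (extChartAt I6 x₀) ((extChartAt I6 x₀).symm y) v))
    ((extChartAt I6 x₀).right_inv hy).symm)

lemma D_self (x₀ : X6) (v : E6) : D x₀ v = Gm x₀ (extChartAt I6 x₀ x₀) v := by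
  rw [D_chart x₀ (mem_extChartAt_source x₀), mfderiv_extChartAt_self]
  rfl

lemma Gm_J (x₀ : X6) {y : E6} (hy : y ∈ (extChartAt I6 x₀).target) (v : E6) :
    Gm x₀ y (coordEnd I6 (JJ 0) x₀ v y) = jF (FF x₀ y) (Gm x₀ y v) := by
  rw [Gm_apply, ← D_coordVec x₀ hy, coordEnd, chart_left x₀ hy, D_JJ, K_zero, D_coordVec x₀ hy]
  rfl

lemma Gm_symm (x₀ : X6) {y : E6} (hy : y ∈ (extChartAt I6 x₀).target) (u v : E6) :
    fderiv ℝ (Gm x₀) y u v = fderiv ℝ (Gm x₀) y v u := by
  have hF := FF_smooth x₀ hy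
  have hG := (Gm_smooth x₀ hy).differentiableAt (by simp)
  have h2 : DifferentiableAt ℝ (fderiv ℝ (FF x₀)) y :=
    (hF.fderiv_right (m := ∞) (by simp)).differentiableAt (by simp)
  have ht : ∀ v, Tan10 (FF x₀ y) (fderiv ℝ (FF x₀) y v) := fun v => by
    have h := fderiv_emb ((chart_smooth x₀ hy).mdifferentiableAt (by simp)) v
    change fderiv ℝ (FF x₀) y v = _ at h
    rw [h]
    exact tan10_emb _ _
  have key : ∀ u v, fderiv ℝ (Gm x₀) y u v = red (FF x₀ y) (fderiv ℝ (fderiv ℝ (FF x₀)) y u v) := by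
    intro u v
    have e1 : fderiv ℝ (fun y => Gm x₀ y v) y u = fderiv ℝ (Gm x₀) y u v := by
      rw [fderiv_clm_apply hG (differentiableAt_const v)]
      simp
    have e2 : fderiv ℝ (fun y => fderiv ℝ (FF x₀) y v) y u = fderiv ℝ (fderiv ℝ (FF x₀)) y u v := by
      rw [fderiv_clm_apply h2 (differentiableAt_const v)]
      simp
    rw [← e1, ← e2]
    simp only [Gm_apply]
    rw [fderiv_red (hF.of_le (by simp)) ((FF_smooth' x₀ hy v).of_le (by simp)),
      (ht u).w1 (on_emb _) (ht v), (ht u).w2 (on_emb _) (ht v)]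
    ext i
    fin_cases i <;> simp
  have hs : IsSymmSndFDerivAt ℝ (FF x₀) y := hF.isSymmSndFDerivAt (by
    simp only [minSmoothness_of_isRCLikeNormedField]
    exact WithTop.coe_le_coe.2 (le_top : (2 : ℕ∞) ≤ ⊤))
  rw [key, key, hs u v]

section
variable {f : ℂ → X6} {ξ : ℂ → E6}

lemma chart_comp (hf : ContMDiff 𝓘(ℝ, ℂ) I6 ∞ f) (w : ℂ) :
    ContDiffAt ℝ ∞ (fun z => extChartAt I6 (f w) (f z)) w :=
  contMDiffAt_iff_contDiffAt.1 (contMDiffAt_extChartAt.comp w (hf w))

lemma D_event (hf : ContMDiff 𝓘(ℝ, ℂ) I6 ∞ f) (ξ : ℂ → E6) (w : ℂ) :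
    (fun z => D (f z) (ξ z)) =ᶠ[𝓝 w]
      fun z => Gm (f w) (extChartAt I6 (f w) (f z)) (loc I6 (f w) f ξ z) := by
  filter_upwards [(hf w).continuousAt.eventually (extChartAt_source_mem_nhds (I := I6) (f w))]
    with z hz
  exact D_chart (f w) hz _

theorem along_amb (hf : ContMDiff 𝓘(ℝ, ℂ) I6 ∞ f) :
    Along I6 f ξ ↔ ContDiff ℝ ∞ fun z => D (f z) (ξ z) := by
  rw [along_iff hf, contDiff_iff_contDiffAt]
  refine forall_congr' fun w => ?_
  have hG := (Gm_smooth (f w) (mem_extChartAt_target (f w))).comp w (chart_comp hf w)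
  refine ⟨fun h => (hG.clm_apply h).congr_of_eventuallyEq (D_event hf ξ w), fun h => ?_⟩
  refine inv_smooth hG (fun a b e => D_inj (f w) ?_)
    (h.congr_of_eventuallyEq (D_event hf ξ w).symm)
  rw [D_self, D_self]
  exact e

theorem lin_amb (hf : Holo I6 (JJ 0) f) (hξ : Along I6 f ξ) (w : ℂ) :
    D (f w) (lin I6 (JJ 0) f ξ w) = fderiv ℝ (fun z => D (f z) (ξ z)) w 1 +
      jF (emb (f w)) (fderiv ℝ (fun z => D (f z) (ξ z)) w Complex.I) +
      cr (D (f w) (ξ w)) (red (emb (f w)) (fderiv ℝ (fun z => emb (f z)) w Complex.I)) := by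
  have ht := mem_extChartAt_target (I := I6) (f w)
  have hF0 : FF (f w) (extChartAt I6 (f w) (f w)) = emb (f w) := by
    rw [FF, extChartAt_to_inv]
  have hG := Gm_smooth (f w) ht
  have hGd := hG.differentiableAt (by simp)
  have hy := (chart_comp hf.smooth w).differentiableAt (by simp)
  have hζ := ((along_iff hf.smooth).1 hξ w).differentiableAt (by simp)
  have hζ0 : loc I6 (f w) f ξ w = ξ w := by
    rw [loc, mfderiv_extChartAt_self]
    rfl
  have e1 : ∀ c, fderiv ℝ (fun z => D (f z) (ξ z)) w c =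
      Gm (f w) (extChartAt I6 (f w) (f w)) (fderiv ℝ (loc I6 (f w) f ξ) w c) +
      fderiv ℝ (Gm (f w)) (extChartAt I6 (f w) (f w))
        (fderiv ℝ (fun z => extChartAt I6 (f w) (f z)) w c) (ξ w) := fun c => by
    have hc : DifferentiableAt ℝ (fun z => Gm (f w) (extChartAt I6 (f w) (f z))) w :=
      DifferentiableAt.comp (g := Gm (f w)) w hGd hy
    rw [(D_event hf.smooth ξ w).fderiv_eq, fderiv_clm_apply hc hζ,
      fderiv_fun_comp (g := Gm (f w)) w hGd hy, hζ0]
    rfl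
  have e2 : ∀ c, red (emb (f w)) (fderiv ℝ (fun z => emb (f z)) w c) =
      Gm (f w) (extChartAt I6 (f w) (f w))
        (fderiv ℝ (fun z => extChartAt I6 (f w) (f z)) w c) := fun c => by
    have e : (fun z => emb (f z)) =ᶠ[𝓝 w] fun z => FF (f w) (extChartAt I6 (f w) (f z)) := by
      filter_upwards [(hf.smooth w).continuousAt.eventually
        (extChartAt_source_mem_nhds (I := I6) (f w))] with z hz
      rw [FF, (extChartAt I6 (f w)).left_inv hz]
    rw [e.fderiv_eq, fderiv_fun_comp w ((FF_smooth (f w) ht).differentiableAt (by simp)) hy,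
      Gm_apply, hF0]
    rfl
  have e3 := (holo_iff hf.smooth).1 hf w 1
  rw [mul_one, K_zero, e2, e2] at e3
  have htan : Tan (emb (f w)) (Gm (f w) (extChartAt I6 (f w) (f w))
      (fderiv ℝ (fun z => extChartAt I6 (f w) (f z)) w 1)) := by
    rw [← D_self]
    exact tan_D _ _
  rw [e1, e1, e2, D_self, D_self]
  change Gm (f w) _ (fderiv ℝ (loc I6 (f w) f ξ) w 1 +
    coordEnd I6 (JJ 0) (f w) (fderiv ℝ (loc I6 (f w) f ξ) w Complex.I) _ +
    fderiv ℝ (coordEnd I6 (JJ 0) (f w) (fderiv ℝ (fun z => extChartAt I6 (f w) (f z)) w Complex.I)) _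
      (loc I6 (f w) f ξ w)) = _
  rw [hζ0]
  generalize fderiv ℝ (fun z => extChartAt I6 (f w) (f z)) w Complex.I = vt at e3 ⊢
  generalize fderiv ℝ (fun z => extChartAt I6 (f w) (f z)) w 1 = vs at e3 htan ⊢
  have hj : ContDiffAt ℝ ∞ (coordEnd I6 (JJ 0) (f w) vt) (extChartAt I6 (f w) (f w)) :=
    ((JJ_compatible 0).smooth (f w) vt).contDiffAt ((isOpen_extChartAt_target (f w)).mem_nhds ht)
  have e4 : (fun y => Gm (f w) y (coordEnd I6 (JJ 0) (f w) vt y)) =ᶠ[𝓝 (extChartAt I6 (f w) (f w))]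
      fun y => jF (FF (f w) y) (Gm (f w) y vt) := by
    filter_upwards [(isOpen_extChartAt_target (f w)).mem_nhds ht] with y hy
    exact Gm_J (f w) hy vt
  have e5 := congrArg (fun L : E6 →L[ℝ] V8 => L (ξ w)) e4.fderiv_eq
  have e6 : coordEnd I6 (JJ 0) (f w) vt (extChartAt I6 (f w) (f w)) = -vs := by
    apply D_inj (f w)
    rw [D_self, D_self, Gm_J (f w) ht, hF0, e3, j_j (on_emb _) htan, map_neg]
  rw [fderiv_clm_apply hGd (hj.differentiableAt (by simp)),
    fderiv_jF ((FF_smooth (f w) ht).of_le (by simp))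
      ((hG.clm_apply contDiffAt_const).of_le (by simp)),
    fderiv_clm_apply hGd (differentiableAt_const vt), ← Gm_apply, hF0, e6] at e5
  simp only [add_apply, ContinuousLinearMap.comp_apply, ContinuousLinearMap.flip_apply, map_neg,
    fderiv_fun_const, Pi.zero_apply, zero_apply, map_zero, zero_add] at e5
  rw [map_add, map_add, Gm_J (f w) ht, hF0, jF_add, Gm_symm (f w) ht vs, Gm_symm (f w) ht vt,
    add_neg_eq_iff_eq_add.1 e5]
  abel

end

end

end Pool.Agent.MP_9dc49b_gt.H61
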