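import Pool.Agent.MP_46692b_an.H26.Cauchy
import Pool.Agent.MP_9dc49b_gt.H61.Defs

/-! Every smooth `(0,1)`-form on the Riemann sphere is exact for the Cauchy-Riemann operator. -/

open scoped ContDiff Convolution Topology
open Complex MeasureTheory Filter Pool.Agent.MP_46692b_an

namespace Pool.Agent.MP_9dc49b_gt.H61

noncomputable section

/-- The operator `∂_s + i ∂_t`. -/
def db (g : ℂ → ℂ) (w : ℂ) : ℂ := fderiv ℝ g w 1 + I * fderiv ℝ g w I

lemma db_smooth {g : ℂ → ℂ} (hg : ContDiff ℝ ∞ g) : ContDiff ℝ ∞ (db g) := by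
  have h : ContDiff ℝ ∞ (fderiv ℝ g) := hg.fderiv_right (by simp)
  unfold db
  fun_prop

lemma int_inv {h : ℂ → ℂ} (hh : Continuous h) (hc : HasCompactSupport h) :
    Integrable fun z => z⁻¹ * h z :=
  H26.locallyIntegrable_inv.integrable_smul_right_of_hasCompactSupport hh hc

lemma pomp {k : ℂ → ℂ} (hk : ContDiff ℝ ∞ k) (hc : HasCompactSupport k) :
    ∫ z, z⁻¹ * db k z = -(2 * Real.pi) * k 0 := by
  have hk1 : ContDiff ℝ 1 k := hk.of_le (by simp)
  have r1 : ContDiff ℝ 1 fun z => (k z).re := reCLM.contDiff.comp hk1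
  have r2 : ContDiff ℝ 1 fun z => (k z).im := imCLM.contDiff.comp hk1
  have c1 : HasCompactSupport fun z => (k z).re := hc.comp_left (g := re) rfl
  have c2 : HasCompactSupport fun z => (k z).im := hc.comp_left (g := im) rfl
  have cs : ∀ ψ : ℂ → ℝ, HasCompactSupport ψ → HasCompactSupport (H26.dbar ψ) := fun ψ h =>
    HasCompactSupport.intro h fun z hz => H26.dbar_eq_zero_of_notMem hz
  have e : ∀ z, z⁻¹ * db k z = z⁻¹ * H26.dbar (fun z => (k z).re) z +
      I * (z⁻¹ * H26.dbar (fun z => (k z).im) z) := fun z => by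
    have hd := (hk1.differentiable one_ne_zero z).hasFDerivAt
    have e1 : fderiv ℝ (fun z => (k z).re) z = reCLM.comp (fderiv ℝ k z) :=
      (reCLM.hasFDerivAt.comp z hd).fderiv
    have e2 : fderiv ℝ (fun z => (k z).im) z = imCLM.comp (fderiv ℝ k z) :=
      (imCLM.hasFDerivAt.comp z hd).fderiv
    simp only [db, H26.dbar, e1, e2, ContinuousLinearMap.comp_apply, reCLM_apply, imCLM_apply]
    linear_combination (-z⁻¹) * re_add_im (fderiv ℝ k z 1) - z⁻¹ * I * re_add_im (fderiv ℝ k z I)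
  simp only [e]
  rw [integral_add (int_inv (H26.continuous_dbar r1) (cs _ c1))
    ((int_inv (H26.continuous_dbar r2) (cs _ c2)).const_mul _), integral_const_mul,
    H26.pompeiu_zero r1 c1, H26.pompeiu_zero r2 c2]
  linear_combination (-(2 * Real.pi : ℂ)) * re_add_im (k 0)

/-- The Cauchy transform. -/
def cau (k : ℂ → ℂ) : ℂ → ℂ := (fun z : ℂ => z⁻¹) ⋆[ContinuousLinearMap.mul ℝ ℂ] k

lemma cau_smooth {k : ℂ → ℂ} (hk : ContDiff ℝ ∞ k) (hc : HasCompactSupport k) :
    ContDiff ℝ ∞ (cau k) :=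
  hc.contDiff_convolution_right _ H26.locallyIntegrable_inv hk

lemma db_cau {k : ℂ → ℂ} (hk : ContDiff ℝ ∞ k) (hc : HasCompactSupport k) (w : ℂ) :
    db (cau k) w = 2 * Real.pi * k w := by
  have hk1 : ContDiff ℝ 1 k := hk.of_le (by simp)
  have hD : Continuous (fderiv ℝ k) := hk1.continuous_fderiv one_ne_zero
  have h1 := (hc.hasFDerivAt_convolution_right (ContinuousLinearMap.mul ℝ ℂ)
    H26.locallyIntegrable_inv hk1 w).fderiv
  have h2 : ∀ v, fderiv ℝ (cau k) w v = ∫ z, z⁻¹ * fderiv ℝ k (w - z) v := fun v => by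
    rw [cau, h1, convolution_precompR_apply _ H26.locallyIntegrable_inv (hc.fderiv ℝ) hD]
    rfl
  have hw : HasCompactSupport fun z => k (w - z) := hc.comp_homeomorph (Homeomorph.subLeft w)
  have h3 := pomp (k := fun z => k (w - z)) (hk.comp (contDiff_const.sub contDiff_id)) hw
  have h4 : ∀ z v, fderiv ℝ (fun z => k (w - z)) z v = -fderiv ℝ k (w - z) v := fun z v => by
    have := ((hk1.differentiable one_ne_zero (w - z)).hasFDerivAt.comp z
      ((hasFDerivAt_id z).const_sub w)).fderiv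
    rw [show (fun z => k (w - z)) = k ∘ HSub.hSub w from rfl, this]
    simp
  have h5 : ∀ v, Integrable fun z => z⁻¹ * fderiv ℝ k (w - z) v := fun v =>
    int_inv ((hD.comp (continuous_const.sub continuous_id)).clm_apply continuous_const)
      (((hc.fderiv ℝ).comp_homeomorph (Homeomorph.subLeft w)).comp_left
        (g := fun L : ℂ →L[ℝ] ℂ => L v) rfl)
  rw [db, h2, h2, ← integral_const_mul, ← integral_add (h5 1) ((h5 I).const_mul _)]
  simp only [db, h4, sub_zero] at h3
  rw [← neg_inj, ← integral_neg, ← neg_mul, ← h3]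
  refine integral_congr_ae (Eventually.of_forall fun z => ?_)
  simp only
  ring

lemma cau_bound {k : ℂ → ℂ} (hk : Continuous k) (hc : HasCompactSupport k) :
    ∃ C : ℝ, ∀ᶠ w in 𝓝[≠] (0 : ℂ), ‖cau k w⁻¹‖ ≤ C * ‖w‖ ∧ ∀ᶠ z in 𝓝 w⁻¹, k z = 0 := by
  obtain ⟨R, hR0, hR⟩ := hc.isCompact.isBounded.subset_closedBall_lt 0 (0 : ℂ)
  refine ⟨2 * ∫ z, ‖k z‖, ?_⟩
  have h1 : ∀ᶠ w in 𝓝 (0 : ℂ), ‖w‖ < (2 * R)⁻¹ :=
    (continuous_norm.tendsto' 0 0 norm_zero).eventually (gt_mem_nhds (by positivity))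
  filter_upwards [mem_nhdsWithin_of_mem_nhds h1, self_mem_nhdsWithin] with w hw hw0
  have hn : 0 < ‖w‖ := norm_pos_iff.2 hw0
  have h2 : 2 * R < ‖w⁻¹‖ := by
    rw [norm_inv]
    exact (lt_inv_comm₀ hn (by positivity)).1 hw
  have h3 : ∀ z, R < ‖z‖ → k z = 0 := fun z hz => image_eq_zero_of_notMem_tsupport fun h => by
    have := hR h
    rw [mem_closedBall_zero_iff] at this
    linarith
  refine ⟨?_, ?_⟩
  · rw [cau, convolution_eq_swap, mul_right_comm, ← integral_const_mul]
    refine norm_integral_le_of_norm_le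
      ((hk.integrable_of_hasCompactSupport hc).norm.const_mul _) (Eventually.of_forall fun z => ?_)
    by_cases hz : R < ‖z‖
    · simp [h3 z hz]
    · rw [ContinuousLinearMap.mul_apply', norm_mul, norm_inv]
      refine mul_le_mul_of_nonneg_right ?_ (norm_nonneg _)
      have h4 : ‖w⁻¹‖ / 2 ≤ ‖w⁻¹ - z‖ := by linarith [norm_sub_norm_le w⁻¹ z]
      refine (inv_anti₀ (by linarith) h4).trans_eq ?_
      rw [norm_inv]
      field_simp
  · filter_upwards [continuous_norm.continuousAt.eventually (lt_mem_nhds h2)] with z hz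
    exact h3 z (by linarith)

/-- The extension by zero at infinity. -/
def ext0 (g : ℂ → ℂ) (s : OnePoint ℂ) : ℂ := OnePoint.rec 0 g s

lemma half {k : ℂ → ℂ} (hk : ContDiff ℝ ∞ k) (hc : HasCompactSupport k) :
    ∃ g : OnePoint ℂ → ℂ, ContDiff ℝ ∞ (fun w : ℂ => g w) ∧ ContDiff ℝ ∞ (fun w => g (flip w)) ∧
      ∀ w, db (fun w : ℂ => g w) w = k w := by
  have hpi : (2 * Real.pi : ℂ) ≠ 0 := by simp
  let k' : ℂ → ℂ := fun z => (2 * Real.pi : ℂ)⁻¹ * k z
  have hk' : ContDiff ℝ ∞ k' := contDiff_const.mul hk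
  have hc' : HasCompactSupport k' := hc.mul_left
  have hs := cau_smooth hk' hc'
  refine ⟨ext0 (cau k'), hs, contDiff_iff_contDiffAt.2 fun w => ?_, fun w => ?_⟩
  · have e : ∀ z : ℂ, z ≠ 0 → ext0 (cau k') (flip z) = cau k' z⁻¹ := fun z hz => by
      rw [flip, if_neg hz]
      rfl
    by_cases hw : w = 0
    · subst hw
      obtain ⟨C, hC⟩ := cau_bound hk'.continuous hc'
      refine (analyticAt_of_differentiable_on_punctured_nhds_of_continuousAt ?_ ?_).contDiffAt
        |>.restrict_scalars ℝ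
      · filter_upwards [hC, self_mem_nhdsWithin] with z hz hz0
        have h1 : DifferentiableAt ℂ (cau k') z⁻¹ := by
          rw [differentiableAt_complex_iff_differentiableAt_real]
          refine ⟨hs.differentiable (by simp) _, ?_⟩
          have h2 := db_cau hk' hc' z⁻¹
          rw [hz.2.self_of_nhds, mul_zero, db] at h2
          rw [smul_eq_mul]
          linear_combination (-I) * h2 + fderiv ℝ (cau k') z⁻¹ I * I_mul_I
        refine (h1.comp z (differentiableAt_inv hz0)).congr_of_eventuallyEq ?_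
        filter_upwards [isOpen_ne.mem_nhds hz0] with y hy
        exact e y hy
      · rw [← continuousWithinAt_compl_self, ContinuousWithinAt]
        have e0 : ext0 (cau k') (flip 0) = 0 := by
          rw [flip, if_pos rfl]
          rfl
        rw [e0]
        refine squeeze_zero_norm' (a := fun z : ℂ => C * ‖z‖) ?_ ?_
        · filter_upwards [hC, self_mem_nhdsWithin] with z hz hz0
          rw [e z hz0]
          exact hz.1
        · exact ((continuous_const.mul continuous_norm).tendsto' 0 0 (by simp)).mono_left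
            nhdsWithin_le_nhds
    · refine (hs.contDiffAt.comp w ((contDiffAt_inv ℂ hw).restrict_scalars ℝ)).congr_of_eventuallyEq ?_
      filter_upwards [isOpen_ne.mem_nhds hw] with y hy
      exact e y hy
  · exact (db_cau hk' hc' w).trans (mul_inv_cancel_left₀ hpi _)

lemma db_inv {g : ℂ → ℂ} (hg : ContDiff ℝ ∞ g) {w : ℂ} (hw : w ≠ 0) :
    db (fun z => g z⁻¹) w = -(starRingEnd ℂ) (w⁻¹ ^ 2) * db g w⁻¹ := by
  have hd : HasFDerivAt (fun z => g z⁻¹) _ w :=
    (hg.differentiable (by simp) w⁻¹).hasFDerivAt.comp w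
      ((hasDerivAt_inv hw).hasFDerivAt.restrictScalars ℝ)
  have h1 : ∀ v, fderiv ℝ (fun z => g z⁻¹) w v = fderiv ℝ g w⁻¹ (-(w⁻¹ ^ 2) * v) := fun v => by
    rw [hd.fderiv]
    simp [mul_comm]
  have h2 : ∀ c : ℂ, fderiv ℝ g w⁻¹ c = c.re * fderiv ℝ g w⁻¹ 1 + c.im * fderiv ℝ g w⁻¹ I :=
    fun c => by
      have : c = c.re • (1 : ℂ) + c.im • I := by simp
      conv_lhs => rw [this, map_add, map_smul, map_smul]
      simp
  rw [db, db, h1, h1, h2 (_ * 1), h2 (_ * I)]
  generalize w⁻¹ ^ 2 = c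
  have h3 : (starRingEnd ℂ) c = c.re - c.im * I := by
    apply Complex.ext <;> simp
  rw [h3]
  simp only [mul_one, neg_re, neg_im, mul_re, mul_im, I_re, I_im, mul_zero, zero_sub, neg_neg,
    ofReal_neg, zero_add, add_zero]
  linear_combination (-(c.im * fderiv ℝ g w⁻¹ I)) * I_mul_I

/-- The involution `w ↦ 1 / w` of the sphere. -/
def fl (s : OnePoint ℂ) : OnePoint ℂ := OnePoint.rec (OnePoint.some 0) flip s

lemma fl_flip (w : ℂ) : fl (flip w) = w := by
  by_cases hw : w = 0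
  · rw [flip, if_pos hw, hw]
    rfl
  · rw [flip, if_neg hw]
    change flip w⁻¹ = _
    rw [flip, if_neg (inv_ne_zero hw), inv_inv]

theorem dbar_solve {h0 h1 : ℂ → ℂ} (s0 : ContDiff ℝ ∞ h0) (s1 : ContDiff ℝ ∞ h1)
    (h : ∀ w, w ≠ 0 → h0 w = -(starRingEnd ℂ) (w⁻¹ ^ 2) * h1 w⁻¹) :
    ∃ g : OnePoint ℂ → ℂ, ContDiff ℝ ∞ (fun w : ℂ => g w) ∧ ContDiff ℝ ∞ (fun w => g (flip w)) ∧
      ∀ w, db (fun w : ℂ => g w) w = h0 w := by
  let χ : ContDiffBump (0 : ℂ) := ⟨1, 2, one_pos, one_lt_two⟩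
  have hχ : ContDiff ℝ ∞ fun z => (χ z : ℂ) := ofRealCLM.contDiff.comp χ.contDiff
  obtain ⟨g2, a1, a2, a3⟩ := half (k := fun z => (χ z : ℂ) * h1 z) (hχ.mul s1)
    (χ.hasCompactSupport.comp_left (g := ofReal) rfl).mul_right
  obtain ⟨g1, b1, b2, b3⟩ := half (k := fun w => h0 w - db (fun w => g2 (flip w)) w)
    (s0.sub (db_smooth a2)) (HasCompactSupport.intro (isCompact_closedBall (0 : ℂ) 1) fun w hw => by
      rw [mem_closedBall_zero_iff, not_le] at hw
      have hw0 : w ≠ 0 := norm_pos_iff.1 (by linarith)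
      have e : (fun w => g2 (flip w)) =ᶠ[𝓝 w] fun w : ℂ => g2 (w⁻¹ : ℂ) := by
        filter_upwards [isOpen_ne.mem_nhds hw0] with y hy
        rw [flip, if_neg hy]
      have e2 := db_inv a1 hw0
      rw [a3, χ.one_of_mem_closedBall (by
        rw [mem_closedBall_zero_iff, norm_inv]
        exact inv_le_one_of_one_le₀ hw.le)] at e2
      rw [h w hw0, db, e.fderiv_eq, ← db, e2]
      simp)
  refine ⟨fun s => g1 s + g2 (fl s), b1.add a2, ?_, fun w => ?_⟩
  · simp only [fl_flip]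
    exact b2.add a1
  · have e := b3 w
    change db (fun w : ℂ => g1 w + g2 (flip w)) w = _
    simp only [db] at e ⊢
    rw [fderiv_fun_add (b1.differentiable (by simp) w) (a2.differentiable (by simp) w)]
    simp only [add_apply]
    linear_combination e

end

end Pool.Agent.MP_9dc49b_gt.H61
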