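import Pool.Agent.MP_9dc49b_gt.H61.Reg

/-! Two point constraints in different fibres over the torus meet no stable map. -/

open scoped Manifold ContDiff Topology
open Pool.Agent.MP_9dc49b_gt.H35

namespace Pool.Agent.MP_9dc49b_gt.H61

noncomputable section

/-- The rotation of the first circle. -/
def rot (θ : ℝ) (p : X6) : X6 := (p.1, p.2.1, p.2.2.1 * Circle.exp θ, p.2.2.2)

lemma rot_cont : Continuous fun x : ℝ × X6 => rot x.1 x.2 := by
  unfold rot
  fun_prop

lemma rot_zero (p : X6) : rot 0 p = p := by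
  simp [rot]

lemma rot_smooth (θ : ℝ) : ContMDiff I6 I6 ∞ (rot θ) :=
  contMDiff_fst.prodMk (contMDiff_snd.fst.prodMk
    ((contMDiff_snd.snd.fst.mul contMDiff_const).prodMk contMDiff_snd.snd.snd))

/-- The rotated cycle. -/
def rotC {W : Type} [TopologicalSpace W] (θ : ℝ) (g : C(W, X6)) : C(W, X6) :=
  ⟨fun w => rot θ (g w), rot_cont.comp (continuous_const.prodMk g.continuous)⟩

lemma rotC_homotopic {W : Type} [TopologicalSpace W] (θ : ℝ) (g : C(W, X6)) :
    g.Homotopic (rotC θ g) :=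
  ⟨{ toFun := fun x => rot (x.1 * θ) (g x.2)
     continuous_toFun := rot_cont.comp
       (((continuous_subtype_val.comp continuous_fst).mul continuous_const).prodMk
         (g.continuous.comp continuous_snd))
     map_zero_left := fun w => by simp [rot_zero]
     map_one_left := fun w => by simp [rotC] }⟩

lemma exists_angle {W W' : Type} [Subsingleton W] [Subsingleton W'] (g : W → X6) (g' : W' → X6) :
    ∃ θ : ℝ, ∀ w w', (rot θ (g w)).2.2 ≠ (g' w').2.2 := by
  by_cases h : ∃ w w', (g w).2.2 = (g' w').2.2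
  · obtain ⟨w, w', h⟩ := h
    refine ⟨Real.pi, fun v v' e => ?_⟩
    rw [Subsingleton.elim v w, Subsingleton.elim v' w', ← h] at e
    have h1 : Circle.exp Real.pi = 1 := mul_eq_left.1 (congrArg Prod.fst e)
    have h2 := congrArg (fun t : Circle => (t : ℂ).re) h1
    simp [Complex.exp_pi_mul_I] at h2
    linarith
  · exact ⟨0, fun w w' e => h ⟨w, w', by rwa [rot_zero] at e⟩⟩

theorem isGW_zero (e : H2 (OnePoint ℂ)) (A : H2 X6) {k : ℕ} (d : Fin (k + 2) → ℕ)
    {W : Fin (k + 2) → Type} [∀ i, TopologicalSpace (W i)]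
    [∀ i, ChartedSpace (EuclideanSpace ℝ (Fin (d i))) (W i)] (g : ∀ i, C(W i, X6))
    (hg : ∀ i, ContMDiff (𝓡 (d i)) I6 ∞ (g i)) (h0 : Subsingleton (W 0)) (h1 : Subsingleton (W 1))
    (ν : (∀ x : X6, TangentSpace I6 x →ₗ[ℝ] TangentSpace I6 x) → (∀ i, C(W i, X6)) →
      (OnePoint ℂ → X6) × (Fin (k + 2) → OnePoint ℂ) × (∀ i, W i) → ℤ) :
    IsGW I6 e A d sig g ν 0 := by
  obtain ⟨θ, hθ⟩ := exists_angle (g 0) (g 1)
  let g' : ∀ i, C(W i, X6) := fun i => rotC (if i = 0 then θ else 0) (g i)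
  have key : ∀ w w', (g' 0 w).2.2 ≠ (g' 1 w').2.2 := fun w w' => by
    simpa [g', rotC, rot_zero] using hθ w w'
  have hS : ∀ x, x ∉ Sol I6 (JJ 0) e A fun i => g' i := fun x hx =>
    key (x.2.2 0) (x.2.2 1) (by
      have a0 : x.1 (x.2.1 0) = g' 0 (x.2.2 0) := hx.2.2.2.2 0
      have a1 : x.1 (x.2.1 1) = g' 1 (x.2.2 1) := hx.2.2.2.2 1
      rw [← a0, ← a1]
      exact sphere_fibre hx.1 _ _)
  refine ⟨JJ 0, g', JJ_compatible 0, regular, fun i => rotC_homotopic _ _,
    ⟨fun i => (rot_smooth _).comp (hg i), fun n T u z m hs hm => ?_, fun x hx => (hS x hx).elim⟩, ?_⟩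
  · obtain ⟨w, hw⟩ := hm 0
    obtain ⟨w', hw'⟩ := hm 1
    refine (key w w' ?_).elim
    have a0 : g' 0 w = u (m 0).1 (m 0).2 := hw
    have a1 : g' 1 w' = u (m 1).1 (m 1).2 := hw'
    rw [a0, a1]
    exact tree_fibre hs.tree _ _ _ _
  · exact finsum_eq_zero_of_forall_eq_zero fun q => (hS _ q.out.2).elim

end

end Pool.Agent.MP_9dc49b_gt.H61
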