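import Pool.Agent.MP_9dc49b_gt.H61.Amb
import Pool.Agent.MP_9dc49b_gt.H61.Dbar

/-! The product structure on `S² × S² × T²` is regular. -/

open scoped Manifold ContDiff Topology
open Filter Pool.Agent.MP_9dc49b_gt.H35

namespace Pool.Agent.MP_9dc49b_gt.H61

noncomputable section

/-- The value at `a` of the holomorphic vector field with coefficients `C`. -/
def Psi (a : V10) (C : Fin 8 → ℂ) : V8 := pr a (fun i => (C i).re) + jF a fun i => (C i).im

/-- A complex linear right inverse. -/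
def lam (a : V10) (η : V8) (i : Fin 8) : ℂ := (η i - Complex.I * jF a η i) / 2

lemma tan_Psi {a : V10} (ha : On a) (C : Fin 8 → ℂ) : Tan a (Psi a C) := by
  constructor <;> simp [Psi, pr, jF]
  · linear_combination (-(a 0 * (C 0).re + a 1 * (C 1).re + a 2 * (C 2).re)) * ha.h1
  · linear_combination (-(a 3 * (C 3).re + a 4 * (C 4).re + a 5 * (C 5).re)) * ha.h2

lemma Psi_add (a : V10) (C C' : Fin 8 → ℂ) : Psi a (C + C') = Psi a C + Psi a C' := by
  ext i; fin_cases i <;> simp [Psi, pr, jF] <;> ring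

lemma Psi_lam {a : V10} {η : V8} (ha : On a) (h : Tan a η) : Psi a (lam a η) = η := by
  have e1 : (fun i => (lam a η i).re) = (1 / 2 : ℝ) • η := by
    ext i; simp [lam]; ring
  have e2 : (fun i => (lam a η i).im) = (-1 / 2 : ℝ) • jF a η := by
    ext i; simp [lam]; ring
  rw [Psi, e1, e2, jF_smul, j_j ha h]
  ext i; fin_cases i <;> simp [pr]
  · linear_combination (-a 0 / 2) * h.h1
  · linear_combination (-a 1 / 2) * h.h1
  · linear_combination (-a 2 / 2) * h.h1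
  · linear_combination (-a 3 / 2) * h.h2
  · linear_combination (-a 4 / 2) * h.h2
  · linear_combination (-a 5 / 2) * h.h2
  · ring
  · ring

lemma lam_conj {a : V10} {η η' : V8} (ha : On a) (h : Tan a η') {c : ℂ}
    (e : η + c.re • η' = jF a (c.im • η')) (i : Fin 8) :
    lam a η i = -(starRingEnd ℂ) c * lam a η' i := by
  have e1 : η = c.im • jF a η' + (-c.re) • η' := by
    rw [← jF_smul, ← e, neg_smul, add_neg_cancel_right]
  have e2 : jF a η = (-c.im) • η' + (-c.re) • jF a η' := by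
    rw [e1, jF_add, jF_smul, jF_smul, j_j ha h, smul_neg, neg_smul c.im]
  rw [lam, e2, e1, lam]
  apply Complex.ext <;> simp <;> ring

lemma lam_smooth {a : ℂ → V10} {η : ℂ → V8} (ha : ContDiff ℝ ∞ a) (hη : ContDiff ℝ ∞ η)
    (i : Fin 8) : ContDiff ℝ ∞ fun w => lam (a w) (η w) i := by
  have h1 : ContDiff ℝ ∞ fun w => jF (a w) (η w) :=
    contDiff_iff_contDiffAt.2 fun w => cd_jF ha.contDiffAt hη.contDiffAt
  have h2 : ∀ b : ℂ → V8, ContDiff ℝ ∞ b → ContDiff ℝ ∞ fun w => (b w i : ℂ) := fun b hb =>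
    Complex.ofRealCLM.contDiff.comp (contDiff_pi.1 hb i)
  exact ((h2 _ hη).sub (contDiff_const.mul (h2 _ h1))).div_const _

lemma re_smooth {C : ℂ → Fin 8 → ℂ} (hC : ∀ i, ContDiff ℝ ∞ fun w => C w i) :
    (ContDiff ℝ ∞ fun w i => (C w i).re) ∧ ContDiff ℝ ∞ fun w i => (C w i).im :=
  ⟨contDiff_pi.2 fun i => Complex.reCLM.contDiff.comp (hC i),
    contDiff_pi.2 fun i => Complex.imCLM.contDiff.comp (hC i)⟩

lemma Psi_smooth {a : ℂ → V10} {C : ℂ → Fin 8 → ℂ} (ha : ContDiff ℝ ∞ a)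
    (hC : ∀ i, ContDiff ℝ ∞ fun w => C w i) : ContDiff ℝ ∞ fun w => Psi (a w) (C w) :=
  contDiff_iff_contDiffAt.2 fun _ => (cd_pr ha.contDiffAt (re_smooth hC).1.contDiffAt).add
    (cd_jF ha.contDiffAt (re_smooth hC).2.contDiffAt)

/-- The derivative of the projection in the base point. -/
def pr1 (a d : V10) (b : V8) : V8 :=
  ![-((d 0 * b 0 + d 1 * b 1 + d 2 * b 2) * a 0 + (a 0 * b 0 + a 1 * b 1 + a 2 * b 2) * d 0),
    -((d 0 * b 0 + d 1 * b 1 + d 2 * b 2) * a 1 + (a 0 * b 0 + a 1 * b 1 + a 2 * b 2) * d 1),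
    -((d 0 * b 0 + d 1 * b 1 + d 2 * b 2) * a 2 + (a 0 * b 0 + a 1 * b 1 + a 2 * b 2) * d 2),
    -((d 3 * b 3 + d 4 * b 4 + d 5 * b 5) * a 3 + (a 3 * b 3 + a 4 * b 4 + a 5 * b 5) * d 3),
    -((d 3 * b 3 + d 4 * b 4 + d 5 * b 5) * a 4 + (a 3 * b 3 + a 4 * b 4 + a 5 * b 5) * d 4),
    -((d 3 * b 3 + d 4 * b 4 + d 5 * b 5) * a 5 + (a 3 * b 3 + a 4 * b 4 + a 5 * b 5) * d 5), 0, 0]

lemma fderiv_pr {a : ℂ → V10} {b : ℂ → V8} {y : ℂ} (ha : ContDiffAt ℝ 1 a y)
    (hb : ContDiffAt ℝ 1 b y) (u : ℂ) : fderiv ℝ (fun y => pr (a y) (b y)) y u =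
      pr1 (a y) (fderiv ℝ a y u) (b y) + pr (a y) (fderiv ℝ b y u) := by
  have h := (cd_pr ha hb).differentiableAt one_ne_zero
  have ha := ha.differentiableAt one_ne_zero
  have hb := hb.differentiableAt one_ne_zero
  ext i
  rw [← fderiv_coord8 h]
  fin_cases i <;>
  · simp only [pr, pr1, Matrix.cons_val, Fin.zero_eta, Fin.mk_one, Fin.reduceFinMk, Pi.add_apply]
    simp (disch := fun_prop) only [fderiv_fun_sub, fderiv_fun_mul, fderiv_fun_add, add_apply,
      sub_apply, smul_apply, smul_eq_mul, fderiv_coord ha, fderiv_coord8 hb]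
    ring

lemma cross_key {x0 x1 x2 s0 s1 s2 t0 t1 t2 P0 P1 P2 Q0 Q1 Q2 T0 T1 T2 U0 U1 U2 : ℝ}
    (h1 : x0 ^ 2 + x1 ^ 2 + x2 ^ 2 = 1) (h2 : x0 * s0 + x1 * s1 + x2 * s2 = 0)
    (c0 : t0 = x1 * s2 - x2 * s1) (c1 : t1 = x2 * s0 - x0 * s2) (c2 : t2 = x0 * s1 - x1 * s0) :
    -((s0 * P0 + s1 * P1 + s2 * P2) * x0 + (x0 * P0 + x1 * P1 + x2 * P2) * s0) +
      (s1 * Q2 - s2 * Q1) +
      (x1 * (-((t0 * P0 + t1 * P1 + t2 * P2) * x2 + (x0 * P0 + x1 * P1 + x2 * P2) * t2) +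
          (T2 - (x0 * T0 + x1 * T1 + x2 * T2) * x2) + ((t0 * Q1 - t1 * Q0) + (x0 * U1 - x1 * U0))) -
        x2 * (-((t0 * P0 + t1 * P1 + t2 * P2) * x1 + (x0 * P0 + x1 * P1 + x2 * P2) * t1) +
          (T1 - (x0 * T0 + x1 * T1 + x2 * T2) * x1) + ((t2 * Q0 - t0 * Q2) + (x2 * U0 - x0 * U2)))) +
      ((P1 - (x0 * P0 + x1 * P1 + x2 * P2) * x1 + (x2 * Q0 - x0 * Q2)) * t2 -
        (P2 - (x0 * P0 + x1 * P1 + x2 * P2) * x2 + (x0 * Q1 - x1 * Q0)) * t1) =
    -(U0 - (x0 * U0 + x1 * U1 + x2 * U2) * x0) + (x1 * T2 - x2 * T1) := by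
  subst c0 c1 c2
  linear_combination (2 * (x0 * P0 + x1 * P1 + x2 * P2) * s0 - (s1 * Q2 - s2 * Q1) - U0) * h1 -
    (2 * (x0 * P0 + x1 * P1 + x2 * P2) * x0 + (Q1 * x2 - Q2 * x1)) * h2

lemma psi_key {a s t : V10} {P Q S S' T U : V8} (ha : On a) (hs : Tan10 a s)
    (hc : red a t = jF a (red a s)) :
    pr1 a s P + pr a S + (cr (red a s) Q + jF a S') +
      jF a (pr1 a t P + pr a T + (cr (red a t) Q + jF a U)) + cr (pr a P + jF a Q) (red a t) =
    pr a (S - U) + jF a (S' + T) := by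
  have c0 := congrFun hc 0
  have c1 := congrFun hc 1
  have c2 := congrFun hc 2
  have c3 := congrFun hc 3
  have c4 := congrFun hc 4
  have c5 := congrFun hc 5
  simp only [red_apply, jF, Matrix.cons_val] at c0 c1 c2 c3 c4 c5
  ext i
  fin_cases i <;>
    simp only [pr, pr1, cr, jF, red_apply, Matrix.cons_val, Fin.zero_eta, Fin.mk_one,
      Fin.reduceFinMk, Pi.add_apply, Pi.sub_apply]
  · linear_combination cross_key (P0 := P 0) (P1 := P 1) (P2 := P 2) (Q0 := Q 0) (Q1 := Q 1)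
      (Q2 := Q 2) (T0 := T 0) (T1 := T 1) (T2 := T 2) (U0 := U 0) (U1 := U 1) (U2 := U 2)
      ha.h1 hs.h1 c0 c1 c2
  · linear_combination cross_key (P0 := P 1) (P1 := P 2) (P2 := P 0) (Q0 := Q 1) (Q1 := Q 2)
      (Q2 := Q 0) (T0 := T 1) (T1 := T 2) (T2 := T 0) (U0 := U 1) (U1 := U 2) (U2 := U 0)
      (by linear_combination ha.h1) (by linear_combination hs.h1) c1 c2 c0
  · linear_combination cross_key (P0 := P 2) (P1 := P 0) (P2 := P 1) (Q0 := Q 2) (Q1 := Q 0)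
      (Q2 := Q 1) (T0 := T 2) (T1 := T 0) (T2 := T 1) (U0 := U 2) (U1 := U 0) (U2 := U 1)
      (by linear_combination ha.h1) (by linear_combination hs.h1) c2 c0 c1
  · linear_combination cross_key (P0 := P 3) (P1 := P 4) (P2 := P 5) (Q0 := Q 3) (Q1 := Q 4)
      (Q2 := Q 5) (T0 := T 3) (T1 := T 4) (T2 := T 5) (U0 := U 3) (U1 := U 4) (U2 := U 5)
      ha.h2 hs.h2 c3 c4 c5
  · linear_combination cross_key (P0 := P 4) (P1 := P 5) (P2 := P 3) (Q0 := Q 4) (Q1 := Q 5)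
      (Q2 := Q 3) (T0 := T 4) (T1 := T 5) (T2 := T 3) (U0 := U 4) (U1 := U 5) (U2 := U 3)
      (by linear_combination ha.h2) (by linear_combination hs.h2) c4 c5 c3
  · linear_combination cross_key (P0 := P 5) (P1 := P 3) (P2 := P 4) (Q0 := Q 5) (Q1 := Q 3)
      (Q2 := Q 4) (T0 := T 5) (T1 := T 3) (T2 := T 4) (U0 := U 5) (U1 := U 3) (U2 := U 4)
      (by linear_combination ha.h2) (by linear_combination hs.h2) c5 c3 c4
  · ring
  · ring

lemma fderiv_Psi {a : ℂ → V10} {C : ℂ → Fin 8 → ℂ} (ha : ContDiff ℝ ∞ a)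
    (hC : ∀ i, ContDiff ℝ ∞ fun w => C w i) {w : ℂ} (ho : On (a w))
    (hs : Tan10 (a w) (fderiv ℝ a w 1))
    (hc : red (a w) (fderiv ℝ a w Complex.I) = jF (a w) (red (a w) (fderiv ℝ a w 1))) :
    fderiv ℝ (fun z => Psi (a z) (C z)) w 1 +
      jF (a w) (fderiv ℝ (fun z => Psi (a z) (C z)) w Complex.I) +
      cr (Psi (a w) (C w)) (red (a w) (fderiv ℝ a w Complex.I)) =
    Psi (a w) fun i => db (fun z => C z i) w := by
  obtain ⟨hP, hQ⟩ := re_smooth hC
  have ha1 : ContDiffAt ℝ 1 a w := ha.contDiffAt.of_le (by simp)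
  have hP1 := (hP.contDiffAt (x := w)).of_le (m := 1) (by simp)
  have hQ1 := (hQ.contDiffAt (x := w)).of_le (m := 1) (by simp)
  have e : ∀ c, fderiv ℝ (fun z => Psi (a z) (C z)) w c = _ := fun c => by
    simp only [Psi]
    rw [fderiv_fun_add ((cd_pr ha1 hP1).differentiableAt one_ne_zero)
      ((cd_jF ha1 hQ1).differentiableAt one_ne_zero), add_apply, fderiv_pr ha1 hP1,
      fderiv_jF ha1 hQ1]
  have r1 : ∀ c i, fderiv ℝ (fun w i => (C w i).re) w c i = (fderiv ℝ (fun z => C z i) w c).re :=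
    fun c i => by
      rw [← fderiv_coord8 (hP1.differentiableAt one_ne_zero)]
      exact congrArg (fun L : ℂ →L[ℝ] ℝ => L c) (Complex.reCLM.hasFDerivAt.comp w
        ((hC i).differentiable (by simp) w).hasFDerivAt).fderiv
  have r2 : ∀ c i, fderiv ℝ (fun w i => (C w i).im) w c i = (fderiv ℝ (fun z => C z i) w c).im :=
    fun c i => by
      rw [← fderiv_coord8 (hQ1.differentiableAt one_ne_zero)]
      exact congrArg (fun L : ℂ →L[ℝ] ℝ => L c) (Complex.imCLM.hasFDerivAt.comp w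
        ((hC i).differentiable (by simp) w).hasFDerivAt).fderiv
  rw [e, e, Psi, psi_key ho hs hc, Psi]
  congr 2 <;> ext i <;> simp [db, r1, r2, sub_eq_add_neg]

/-- The section with coefficients `C`. -/
def sec (u : OnePoint ℂ → X6) (C : OnePoint ℂ → Fin 8 → ℂ) (s : OnePoint ℂ) : E6 :=
  R (u s) (Psi (emb (u s)) (C s))

lemma D_sec (u : OnePoint ℂ → X6) (C : OnePoint ℂ → Fin 8 → ℂ) (s : OnePoint ℂ) :
    D (u s) (sec u C s) = Psi (emb (u s)) (C s) := by
  obtain ⟨v, hv⟩ := D_surj (u s) (tan_Psi (on_emb _) (C s))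
  rw [sec, ← hv, R_D]

lemma holo_flip {u : OnePoint ℂ → X6} (hu : JSphere I6 (JJ 0) u) :
    Holo I6 (JJ 0) fun w => u (flip w) := by
  have e : (fun w => u (flip w)) =
      fun w : ℂ => if w = 0 then u OnePoint.infty else u (OnePoint.some w⁻¹) :=
    funext fun w => apply_ite u _ _ _
  rw [e]
  exact hu.2

lemma emb_smooth {f : ℂ → X6} (hf : Holo I6 (JJ 0) f) : ContDiff ℝ ∞ fun w => emb (f w) :=
  contDiff_iff_contDiffAt.2 fun w => contDiffAt_emb (hf.smooth w)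

lemma solves_sec {u : OnePoint ℂ → X6} (hu : JSphere I6 (JJ 0) u) {C : OnePoint ℂ → Fin 8 → ℂ}
    (h0 : ∀ i, ContDiff ℝ ∞ fun w : ℂ => C w i) (h1 : ∀ i, ContDiff ℝ ∞ fun w => C (flip w) i)
    {η : ℂ → E6}
    (h : ∀ w : ℂ, (Psi (emb (u w)) fun i => db (fun z : ℂ => C z i) w) = D (u w) (η w)) :
    Solves I6 (JJ 0) u (sec u C) η := by
  have a0 : Along I6 (fun w : ℂ => u w) fun w => sec u C w := by
    rw [along_amb hu.1.smooth]
    simp only [D_sec]
    exact Psi_smooth (emb_smooth hu.1) h0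
  refine ⟨a0, ?_, funext fun w => D_inj (u w) ?_⟩
  · rw [along_amb (holo_flip hu).smooth]
    simp only [D_sec]
    exact Psi_smooth (emb_smooth (holo_flip hu)) h1
  · rw [lin_amb hu.1 a0, ← h]
    simp only [D_sec]
    refine fderiv_Psi (emb_smooth hu.1) h0 (on_emb _) ?_ ?_
    · rw [fderiv_emb ((hu.1.smooth w).mdifferentiableAt (by simp))]
      exact tan10_emb _ _
    · have := (holo_iff hu.1.smooth).1 hu.1 w 1
      rwa [mul_one, K_zero] at this

lemma exists_coeff {u : OnePoint ℂ → X6} (hu : JSphere I6 (JJ 0) u) {η : ℂ → E6}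
    (hη : Form I6 (JJ 0) u η) :
    ∃ C : OnePoint ℂ → Fin 8 → ℂ, ∀ c : Fin 8 → ℂ, Solves I6 (JJ 0) u (sec u fun s => C s + c) η := by
  obtain ⟨a0, η', a1, h⟩ := hη
  rw [along_amb hu.1.smooth] at a0
  rw [along_amb (holo_flip hu).smooth] at a1
  have key := fun i => dbar_solve (lam_smooth (emb_smooth hu.1) a0 i)
    (lam_smooth (emb_smooth (holo_flip hu)) a1 i) fun w hw => by
      have e : flip w⁻¹ = w := by rw [flip, if_neg (inv_ne_zero hw), inv_inv]
      simp only [e]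
      refine lam_conj (on_emb _) (tan_D _ _) ?_ i
      have h2 := congrArg (D (u w)) (h w hw)
      rw [D_JJ, K_zero, map_add, map_smul] at h2
      exact h2.trans (congrArg _ ((D (u w)).map_smul _ _))
  choose g g0 g1 g2 using key
  refine ⟨fun s i => g i s, fun c => solves_sec hu (fun i => (g0 i).add contDiff_const)
    (fun i => (g1 i).add contDiff_const) fun w => ?_⟩
  rw [← Psi_lam (on_emb _) (tan_D (u w) (η w))]
  refine congrArg _ (funext fun i => ?_)
  rw [← g2]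
  simp only [db, Pi.add_apply, fderiv_add_const]

lemma tree_potential {V G : Type} [AddCommGroup G] {T : SimpleGraph V} (hT : T.IsTree)
    (d : V → V → G) (hd : ∀ a b, T.Adj a b → d b a = -d a b) :
    ∃ c : V → G, ∀ a b, T.Adj a b → c b = c a + d a b := by
  classical
  obtain ⟨r⟩ := hT.connected.nonempty
  choose P hP hP' using hT.existsUnique_path r
  let S : ∀ {a b : V}, T.Walk a b → G := fun p => (p.darts.map fun e => d e.fst e.snd).sum
  have step : ∀ a b (h : T.Adj a b), b ∉ (P a).support → S (P b) = S (P a) + d a b := by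
    intro a b h hb
    rw [← hP' b ((P a).concat h) ((hP a).concat hb h)]
    simp [S]
  refine ⟨fun a => S (P a), fun a b h => ?_⟩
  by_cases hb : b ∈ (P a).support
  · have ha : a ∉ (P b).support := by
      rw [← hP' b _ ((hP a).takeUntil hb)]
      exact SimpleGraph.Walk.endpoint_notMem_support_takeUntil (hP a) hb h.ne
    change S (P b) = S (P a) + d a b
    rw [step b a h.symm ha, hd a b h, neg_add_cancel_right]
  · exact step a b h hb

lemma zero_mem_Tg (u : OnePoint ℂ → X6) (s : OnePoint ℂ) : (0 : E6) ∈ Tg I6 u s := by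
  induction s using OnePoint.rec with
  | infty => exact ⟨0, 0, Or.inr ⟨by rw [flip, if_pos rfl], (map_zero _).symm⟩⟩
  | coe w => exact ⟨w, 0, Or.inl ⟨rfl, (map_zero _).symm⟩⟩

theorem regular : Regular I6 (JJ 0) := by
  intro n T u z hT _ η v hη
  choose C hC using fun a => exists_coeff (hT.sphere a) (hη a)
  let d : Fin n → Fin n → Fin 8 → ℂ := fun a b =>
    lam (emb (u a (z a b))) (D (u a (z a b)) (v a b)) - C a (z a b)
  obtain ⟨c, hc⟩ := tree_potential hT.tree (fun a b => d b a - d a b) fun a b _ => (neg_sub _ _).symm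
  refine ⟨fun a => sec (u a) fun s => C a s + c a, 0, fun a => hC a _, fun a b h =>
    ⟨zero_mem_Tg _ _, ?_⟩⟩
  have key : ∀ a b, D (u a (z a b)) (sec (u a) (fun s => C a s + c a) (z a b) + 0 - v a b) =
      Psi (emb (u a (z a b))) (c a - d a b) := fun a b => by
    rw [add_zero, map_sub, D_sec, sub_eq_iff_eq_add,
      ← Psi_lam (on_emb _) (tan_D (u a (z a b)) (v a b)), ← Psi_add]
    refine congrArg _ ?_
    simp only [d]
    abel
  apply D_inj (u a (z a b))
  refine (key a b).trans ?_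
  rw [hT.node a b h]
  refine Eq.trans (congrArg _ ?_) (key b a).symm
  rw [hc a b h]
  abel

end

end Pool.Agent.MP_9dc49b_gt.H61
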